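import Pool.Agent.helper58.FI.SpecC

/-!
# Project fi, block F, row HTN: the norm on the `p`-regular elements
-/

set_option autoImplicit false

namespace Pool.Agent.FI

open Pool.Agent.helper58.DC Pool.Agent.DI Pool.Agent.GR Pool.Agent.OB Pool.Agent.DR

/-- Every element is the product of commuting powers of itself, a `p`-element and a `p`-regular element. -/
theorem HTN_dec {p : ℕ} (hp : p.Prime) {G : Type} [Group G] [Finite G] (g : G) :
    ∃ e f : ℕ, g ^ e * g ^ f = g ∧ PEl p (g ^ e) ∧ PReg p (g ^ f) := by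
  have hn : orderOf g ≠ 0 := (orderOf_pos g).ne'
  set n := orderOf g with hn'
  set a := p ^ n.factorization p with ha
  set b := n / p ^ n.factorization p with hb
  have hab : a * b = n := Nat.ordProj_mul_ordCompl_eq_self n p
  have hpb' : ¬ p ∣ b := Nat.not_dvd_ordCompl hp hn
  have hpb : p.Coprime b := Nat.coprime_ordCompl hp hn
  have hco : a.Coprime b := hpb.pow_left _
  obtain ⟨e, he1, he2⟩ := Nat.chineseRemainder hco 1 0
  obtain ⟨f, hf1, hf2⟩ := Nat.chineseRemainder hco 0 1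
  have hbe : b ∣ e := (Nat.modEq_zero_iff_dvd).mp he2
  have haf : a ∣ f := (Nat.modEq_zero_iff_dvd).mp hf1
  refine ⟨e, f, ?_, ⟨n.factorization p, ?_⟩, ?_⟩
  · have h1 : e + f ≡ 1 [MOD n] := by
      rw [← hab]
      refine (Nat.modEq_and_modEq_iff_modEq_mul hco).mp ⟨?_, ?_⟩
      · simpa using he1.add hf1
      · simpa using he2.add hf2
    rw [← pow_add]
    have h2 := pow_eq_pow_iff_modEq.2 h1
    rw [h2, pow_one]
  · rw [← pow_mul, ← orderOf_dvd_iff_pow_eq_one, ← hn']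
    calc n = b * a := by rw [mul_comm]; exact hab.symm
      _ ∣ e * a := Nat.mul_dvd_mul_right hbe _
  · intro hd
    have : orderOf (g ^ f) ∣ b := by
      rw [orderOf_dvd_iff_pow_eq_one, ← pow_mul, ← orderOf_dvd_iff_pow_eq_one, ← hn']
      calc n = a * b := hab.symm
        _ ∣ f * b := Nat.mul_dvd_mul_right haf _
    exact hpb' (hd.trans this)

theorem HTN (hBR0 : BR0_stmt) (hB2 : B2_stmt) (hFBC : FBC_stmt) : HTN_stmt := by
  intro p M hM G _ _ D L θ hgood ψ hψ ψ' hψ'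
  classical
  haveI := Fintype.ofFinite G
  have hp := hM.pr
  obtain ⟨hfinI, hB⟩ := hB2 G L
  have hbI : Bl M L θ ⊆ IrrOn L := fun φ h => h.1
  have hbfin : (Bl M L θ).Finite := hfinI.subset hbI
  have hBC := (hFBC p M hM G L θ 1).1
  have hSf : ∀ w : G, Sf (Bl M L θ) w 1 = ∑ φ ∈ hbfin.toFinset, φ w * φ 1 := by
    intro w
    unfold Sf
    rw [finsum_mem_eq_finite_toFinset_sum _ hbfin, inv_one]
  -- the values off the `p`-regular elements
  have h0 : ∀ w ∈ L, ¬ PReg p w → Sf (Bl M L θ) w 1 = 0 := by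
    intro w hw hreg
    obtain ⟨e, f, hef, hy, hu⟩ := HTN_dec hp w
    have hyL : w ^ e ∈ L := L.pow_mem hw _
    have huL : w ^ f ∈ L := L.pow_mem hw _
    have hyne : w ^ e ≠ 1 := by
      intro h
      rw [h, one_mul] at hef
      rw [hef] at hu
      exact hreg hu
    have h1 : PEl p (1 : G) := ⟨0, one_pow _⟩
    have h2 : PReg p (1 : G) := by
      unfold PReg
      rw [orderOf_one]
      exact fun h => hp.one_lt.ne' (Nat.dvd_one.1 h)
    have h3 := hBR0 p M hM G L (Bl M L θ) hBC (w ^ e) hyL (w ^ f) huL 1 L.one_mem 1 L.one_mem hy h1 hu h2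
      ((Commute.refl w).pow_pow e f) (Commute.one_left 1) (fun h hh hc => hyne (by
        have h4 : w ^ e = h * (h⁻¹ * w ^ e * h) * h⁻¹ := by group
        rw [h4, hc]
        group))
    rwa [hef, mul_one] at h3
  -- the full sum
  have h1 : ∑ w : G, Sf (Bl M L θ) w 1 * ψ' w⁻¹ = ψ' 1 * Nat.card L := by
    have e1 : ∀ w : G, Sf (Bl M L θ) w 1 * ψ' w⁻¹ = ∑ φ ∈ hbfin.toFinset, φ 1 * (φ w * ψ' w⁻¹) := by
      intro w
      rw [hSf, Finset.sum_mul]
      exact Finset.sum_congr rfl fun φ _ => by ring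
    rw [Finset.sum_congr rfl fun w _ => e1 w, Finset.sum_comm]
    have e2 : ∀ φ ∈ hbfin.toFinset, ∑ w : G, φ 1 * (φ w * ψ' w⁻¹) =
        if φ = ψ' then ψ' 1 * (Nat.card L : ℂ) else 0 := by
      intro φ hφ
      rw [Set.Finite.mem_toFinset] at hφ
      have h2 := (hB φ (hbI hφ)).2.2.2.2 ψ' (hbI hψ')
      rw [finsum_eq_sum_of_fintype] at h2
      rw [← Finset.mul_sum, h2]
      split_ifs with h
      · rw [h]
      · rw [mul_zero]
    rw [Finset.sum_congr rfl e2, Finset.sum_ite_eq', if_pos (hbfin.mem_toFinset.2 hψ')]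
  -- the terms
  have h2 : ∀ w : G, Sf (Bl M L θ) w 1 * ψ' w⁻¹ =
      Set.indicator {v : G | v ∈ L ∧ PReg p v} (fun v => (Nat.card D : ℂ) * ψ 1 * (ψ v * ψ' v⁻¹)) w := by
    intro w
    by_cases hw : w ∈ {v : G | v ∈ L ∧ PReg p v}
    · rw [Set.indicator_of_mem hw, hSf]
      have h3 : ∀ φ ∈ hbfin.toFinset, φ w * φ 1 = ψ w * ψ 1 := by
        intro φ hφ
        rw [Set.Finite.mem_toFinset] at hφ
        have q1 : PReg p (1 : G) := by
          unfold PReg
          rw [orderOf_one]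
          exact fun h => hp.one_lt.ne' (Nat.dvd_one.1 h)
        rw [hgood.reg φ hφ ψ hψ w hw.1 hw.2, hgood.reg φ hφ ψ hψ 1 L.one_mem q1]
      rw [Finset.sum_congr rfl h3, Finset.sum_const, nsmul_eq_mul]
      have h4 : hbfin.toFinset.card = Nat.card D := by
        rw [← Set.ncard_eq_toFinset_card _ hbfin]
        exact hgood.card
      rw [h4]
      ring
    · rw [Set.indicator_of_notMem hw]
      by_cases hL : w ∈ L
      · have hr : ¬ PReg p w := fun h => hw ⟨hL, h⟩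
        rw [h0 w hL hr, zero_mul]
      · have hL' : w⁻¹ ∉ L := fun h => hL (by rw [← inv_inv w]; exact L.inv_mem h)
        rw [(hB ψ' (hbI hψ')).2.2.2.1 _ hL', mul_zero]
  rw [Finset.sum_congr rfl fun w _ => h2 w] at h1
  have hreg1 : ψ' 1 = ψ 1 := by
    have q1 : PReg p (1 : G) := by
      unfold PReg
      rw [orderOf_one]
      exact fun h => hp.one_lt.ne' (Nat.dvd_one.1 h)
    exact hgood.reg ψ' hψ' ψ hψ 1 L.one_mem q1
  have hne : ψ 1 ≠ 0 := by
    obtain ⟨n, hn, hn', -⟩ := (hB ψ (hbI hψ)).1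
    rw [hn']
    exact_mod_cast hn.ne'
  rw [hreg1] at h1
  have h5 : ∑ w : G, Set.indicator {v : G | v ∈ L ∧ PReg p v}
      (fun v => (Nat.card D : ℂ) * ψ 1 * (ψ v * ψ' v⁻¹)) w =
      ψ 1 * ((Nat.card D : ℂ) * ∑ᶠ v ∈ {v : G | v ∈ L ∧ PReg p v}, ψ v * ψ' v⁻¹) := by
    rw [finsum_mem_def, finsum_eq_sum_of_fintype, Finset.mul_sum, Finset.mul_sum]
    refine Finset.sum_congr rfl fun w _ => ?_
    by_cases hw : w ∈ {v : G | v ∈ L ∧ PReg p v}
    · rw [Set.indicator_of_mem hw, Set.indicator_of_mem hw]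
      ring
    · rw [Set.indicator_of_notMem hw, Set.indicator_of_notMem hw]
      ring
  rw [h5] at h1
  exact mul_left_cancel₀ hne h1

end Pool.Agent.FI
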